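import Pool.Agent.T4h91.BR.Four

set_option autoImplicit false

/-! Few elements of a set with a small representation function are biased. -/

open Finset Filter Topology

namespace Pool.Agent.T4h91.BR

open Pool.Agent.Helper112 Pool.Agent.TH314.ET

/-- `L = ∑ δ_q⁴ / φ(q)` -/
noncomputable def LL (Q : Finset ℕ) (δ : ℕ → ℝ) : ℝ := ∑ q ∈ Q, δ q ^ 4 / (Nat.totient q : ℝ)

/-- `S(n) = ∑ δ_q³ φ_q(n) / φ(q)` -/
noncomputable def SS (Q : Finset ℕ) (δ : ℕ → ℝ) (φ : ℕ → ℕ → ℂ) (n : ℕ) : ℂ :=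
  ∑ q ∈ Q, ((δ q ^ 3 / (Nat.totient q : ℝ) : ℝ) : ℂ) * φ q n

lemma quarticF {F : Finset ℕ} {N : ℕ} (hF : F ⊆ Icc 1 N) (Q : Finset ℕ)
    (hQ : Q ⊆ Icc 1 (Nat.sqrt N)) (φ : ℕ → ℕ → ℂ) (h : ∀ q ∈ Q, Prim q (φ q)) :
    ∑ q ∈ Q, ‖∑ a ∈ F, φ q a‖ ^ 4 / (Nat.totient q : ℝ) ≤
      18 * N * ∑ n ∈ Icc 1 (2 * N), (rF F n : ℝ) ^ 2 := by
  have h0 : ∑ q ∈ Q, ‖∑ a ∈ F, φ q a‖ ^ 4 / (Nat.totient q : ℝ) ≤
      6 * (2 * N + ((Nat.sqrt N : ℕ) : ℝ) ^ 2) * ∑ n ∈ Icc 1 (2 * N), (rF F n : ℝ) ^ 2 := by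
    refine le_trans ?_ (fourth_moment hF (Nat.sqrt N))
    calc ∑ q ∈ Q, ‖∑ a ∈ F, φ q a‖ ^ 4 / (Nat.totient q : ℝ)
        ≤ ∑ q ∈ Q, ∑ a ∈ (range q).filter (fun a => a.Coprime q), ‖Sf (ind F) (a / q)‖ ^ 4 := by
          refine sum_le_sum fun q hq => ?_
          exact one_mod _ (h q hq) (mem_Icc.1 (hQ hq)).1
      _ ≤ _ := sum_le_sum_of_subset_of_nonneg hQ fun _ _ _ => by positivity
  refine h0.trans ?_
  have h1 : ((Nat.sqrt N : ℕ) : ℝ) ^ 2 ≤ N := by exact_mod_cast Nat.sqrt_le' N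
  have h3 : (0 : ℝ) ≤ ∑ n ∈ Icc 1 (2 * N), (rF F n : ℝ) ^ 2 :=
    Finset.sum_nonneg fun _ _ => by positivity
  calc 6 * (2 * N + ((Nat.sqrt N : ℕ) : ℝ) ^ 2) * ∑ n ∈ Icc 1 (2 * N), (rF F n : ℝ) ^ 2
      ≤ 6 * (2 * N + N) * ∑ n ∈ Icc 1 (2 * N), (rF F n : ℝ) ^ 2 := by
        apply mul_le_mul_of_nonneg_right _ h3
        linarith
    _ = _ := by ring

/-- the four directions -/
noncomputable def dir (j : ℕ) (z : ℂ) : ℝ :=
  if j = 0 then z.re else if j = 1 then -z.re else if j = 2 then z.im else -z.im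

lemma dir_sum (j : ℕ) (G : Finset ℕ) (s : ℕ → ℂ) :
    dir j (∑ a ∈ G, s a) = ∑ a ∈ G, dir j (s a) := by
  unfold dir
  split_ifs <;> simp [Complex.re_sum, Complex.im_sum]

lemma dir_le (j : ℕ) (z : ℂ) : dir j z ≤ ‖z‖ := by
  have h1 := Complex.abs_re_le_norm z
  have h2 := Complex.abs_im_le_norm z
  rw [abs_le] at h1 h2
  unfold dir
  split_ifs <;> linarith [h1.1, h1.2, h2.1, h2.2]

lemma exists_dir (z : ℂ) : ∃ j ∈ range 4, ‖z‖ / 2 ≤ dir j z := by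
  have h := Complex.norm_le_abs_re_add_abs_im z
  rcases le_total |z.re| |z.im| with h1 | h1
  · rcases le_total 0 z.im with h2 | h2
    · refine ⟨2, by decide, ?_⟩
      rw [abs_of_nonneg h2] at h h1
      have : dir 2 z = z.im := by unfold dir; norm_num
      rw [this]; linarith
    · refine ⟨3, by decide, ?_⟩
      rw [abs_of_nonpos h2] at h h1
      have : dir 3 z = -z.im := by unfold dir; norm_num
      rw [this]; linarith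
  · rcases le_total 0 z.re with h2 | h2
    · refine ⟨0, by decide, ?_⟩
      rw [abs_of_nonneg h2] at h h1
      have : dir 0 z = z.re := by unfold dir; norm_num
      rw [this]; linarith
    · refine ⟨1, by decide, ?_⟩
      rw [abs_of_nonpos h2] at h h1
      have : dir 1 z = -z.re := by unfold dir; norm_num
      rw [this]; linarith

lemma hoelder (Q : Finset ℕ) (δ X : ℕ → ℝ) (hδ : ∀ q, 0 ≤ δ q) (hX : ∀ q, 0 ≤ X q) :
    (∑ q ∈ Q, δ q ^ 3 / (Nat.totient q : ℝ) * X q) ^ 4 ≤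
      LL Q δ ^ 3 * ∑ q ∈ Q, X q ^ 4 / (Nat.totient q : ℝ) := by
  have h1 : (∑ q ∈ Q, δ q ^ 3 / (Nat.totient q : ℝ) * X q) ^ 2 ≤
      LL Q δ * ∑ q ∈ Q, δ q ^ 2 * X q ^ 2 / (Nat.totient q : ℝ) := by
    unfold LL
    apply sum_sq_le_sum_mul_sum_of_sq_le_mul
    · intro q _
      exact div_nonneg (pow_nonneg (hδ q) 4) (Nat.cast_nonneg _)
    · intro q _
      positivity
    · intro q _
      exact le_of_eq (by ring)
  have h2 : (∑ q ∈ Q, δ q ^ 2 * X q ^ 2 / (Nat.totient q : ℝ)) ^ 2 ≤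
      LL Q δ * ∑ q ∈ Q, X q ^ 4 / (Nat.totient q : ℝ) := by
    unfold LL
    apply sum_sq_le_sum_mul_sum_of_sq_le_mul
    · intro q _
      exact div_nonneg (pow_nonneg (hδ q) 4) (Nat.cast_nonneg _)
    · intro q _
      exact div_nonneg (pow_nonneg (hX q) 4) (Nat.cast_nonneg _)
    · intro q _
      exact le_of_eq (by ring)
  have hL : 0 ≤ LL Q δ := sum_nonneg fun q _ => div_nonneg (pow_nonneg (hδ q) 4) (Nat.cast_nonneg _)
  calc (∑ q ∈ Q, δ q ^ 3 / (Nat.totient q : ℝ) * X q) ^ 4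
      = ((∑ q ∈ Q, δ q ^ 3 / (Nat.totient q : ℝ) * X q) ^ 2) ^ 2 := by ring
    _ ≤ (LL Q δ * ∑ q ∈ Q, δ q ^ 2 * X q ^ 2 / (Nat.totient q : ℝ)) ^ 2 :=
        pow_le_pow_left₀ (sq_nonneg _) h1 2
    _ = LL Q δ ^ 2 * (∑ q ∈ Q, δ q ^ 2 * X q ^ 2 / (Nat.totient q : ℝ)) ^ 2 := by ring
    _ ≤ LL Q δ ^ 2 * (LL Q δ * ∑ q ∈ Q, X q ^ 4 / (Nat.totient q : ℝ)) :=
        mul_le_mul_of_nonneg_left h2 (by positivity)
    _ = _ := by ring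

/-- few elements are biased -/
theorem biased_few {F : Finset ℕ} {N : ℕ} (hF : F ⊆ Icc 1 N) (Q : Finset ℕ)
    (hQ : Q ⊆ Icc 1 (Nat.sqrt N)) (φ : ℕ → ℕ → ℂ) (h : ∀ q ∈ Q, Prim q (φ q))
    (δ : ℕ → ℝ) (hδ : ∀ q, 0 ≤ δ q) (c : ℝ) (hc : 0 < c)
    (hB : ∀ a ∈ F, c * LL Q δ ≤ ‖SS Q δ φ a‖) :
    c ^ 4 * LL Q δ * (F.card : ℝ) ^ 4 ≤ 73728 * N * ∑ n ∈ Icc 1 (2 * N), (rF F n : ℝ) ^ 2 := by
  classical
  have hL : 0 ≤ LL Q δ := sum_nonneg fun q _ => div_nonneg (pow_nonneg (hδ q) 4) (Nat.cast_nonneg _)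
  have hR : 0 ≤ ∑ n ∈ Icc 1 (2 * N), (rF F n : ℝ) ^ 2 := sum_nonneg fun _ _ => by positivity
  rcases hL.eq_or_lt with h0 | hLp
  · rw [← h0, mul_zero, zero_mul]; positivity
  -- a direction
  set G : ℕ → Finset ℕ := fun j => F.filter fun a => ‖SS Q δ φ a‖ / 2 ≤ dir j (SS Q δ φ a) with hG
  have hcov : F ⊆ (range 4).biUnion G := by
    intro a ha
    obtain ⟨j, hj, hj2⟩ := exists_dir (SS Q δ φ a)
    rw [mem_biUnion]
    exact ⟨j, hj, mem_filter.2 ⟨ha, hj2⟩⟩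
  have hcard : F.card ≤ ∑ j ∈ range 4, (G j).card :=
    (card_le_card hcov).trans card_biUnion_le
  obtain ⟨j, -, hj⟩ : ∃ j ∈ range 4, F.card ≤ 4 * (G j).card := by
    by_contra hcon
    push Not at hcon
    have h1 : ∑ j ∈ range 4, 4 * (G j).card < ∑ _j ∈ range 4, F.card :=
      sum_lt_sum_of_nonempty ⟨0, by decide⟩ fun j hj => hcon j hj
    rw [← mul_sum, sum_const, card_range, smul_eq_mul] at h1
    omega
  have hGF : G j ⊆ F := filter_subset _ _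
  have h1 : ((G j).card : ℝ) * (c * LL Q δ / 2) ≤ ‖∑ a ∈ G j, SS Q δ φ a‖ := by
    refine le_trans ?_ (dir_le j _)
    rw [dir_sum, ← nsmul_eq_mul, ← sum_const]
    refine sum_le_sum fun a ha => ?_
    have h2 := (mem_filter.1 ha).2
    have h3 := hB a (hGF ha)
    linarith
  have h2 : ‖∑ a ∈ G j, SS Q δ φ a‖ ≤
      ∑ q ∈ Q, δ q ^ 3 / (Nat.totient q : ℝ) * ‖∑ a ∈ G j, φ q a‖ := by
    have e : ∑ a ∈ G j, SS Q δ φ a =
        ∑ q ∈ Q, ((δ q ^ 3 / (Nat.totient q : ℝ) : ℝ) : ℂ) * ∑ a ∈ G j, φ q a := by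
      unfold SS
      rw [sum_comm]
      exact sum_congr rfl fun q _ => by rw [mul_sum]
    rw [e]
    refine (norm_sum_le _ _).trans (le_of_eq ?_)
    refine sum_congr rfl fun q _ => ?_
    rw [norm_mul, Complex.norm_real, Real.norm_eq_abs, abs_of_nonneg]
    exact div_nonneg (pow_nonneg (hδ q) 3) (Nat.cast_nonneg _)
  have h3 := hoelder Q δ (fun q => ‖∑ a ∈ G j, φ q a‖) hδ (fun _ => norm_nonneg _)
  have h4 := quarticF (hGF.trans hF) Q hQ φ h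
  have h5 : ∑ n ∈ Icc 1 (2 * N), (rF (G j) n : ℝ) ^ 2 ≤ ∑ n ∈ Icc 1 (2 * N), (rF F n : ℝ) ^ 2 := by
    refine sum_le_sum fun n _ => ?_
    apply pow_le_pow_left₀ (Nat.cast_nonneg _)
    have : rF (G j) n ≤ rF F n := by
      unfold rF
      exact card_le_card (filter_subset_filter _ (product_subset_product hGF hGF))
    exact_mod_cast this
  have h6 : (((G j).card : ℝ) * (c * LL Q δ / 2)) ^ 4 ≤
      LL Q δ ^ 3 * (18 * N * ∑ n ∈ Icc 1 (2 * N), (rF F n : ℝ) ^ 2) := by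
    calc (((G j).card : ℝ) * (c * LL Q δ / 2)) ^ 4
        ≤ (∑ q ∈ Q, δ q ^ 3 / (Nat.totient q : ℝ) * ‖∑ a ∈ G j, φ q a‖) ^ 4 :=
          pow_le_pow_left₀ (by positivity) (h1.trans h2) 4
      _ ≤ _ := h3
      _ ≤ _ := by
        apply mul_le_mul_of_nonneg_left _ (by positivity)
        refine h4.trans ?_
        exact mul_le_mul_of_nonneg_left h5 (by positivity)
  have h7 : (F.card : ℝ) ^ 4 ≤ 256 * ((G j).card : ℝ) ^ 4 := by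
    have h8 : (F.card : ℝ) ≤ 4 * (G j).card := by exact_mod_cast hj
    calc (F.card : ℝ) ^ 4 ≤ (4 * ((G j).card : ℝ)) ^ 4 := pow_le_pow_left₀ (Nat.cast_nonneg _) h8 4
      _ = _ := by ring
  have h8 : LL Q δ ^ 3 * (c ^ 4 * LL Q δ * ((G j).card : ℝ) ^ 4) ≤
      LL Q δ ^ 3 * (288 * N * ∑ n ∈ Icc 1 (2 * N), (rF F n : ℝ) ^ 2) := by
    calc LL Q δ ^ 3 * (c ^ 4 * LL Q δ * ((G j).card : ℝ) ^ 4)
        = 16 * (((G j).card : ℝ) * (c * LL Q δ / 2)) ^ 4 := by ring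
      _ ≤ 16 * (LL Q δ ^ 3 * (18 * N * ∑ n ∈ Icc 1 (2 * N), (rF F n : ℝ) ^ 2)) :=
          mul_le_mul_of_nonneg_left h6 (by norm_num)
      _ = _ := by ring
  have h9 := le_of_mul_le_mul_left h8 (by positivity)
  calc c ^ 4 * LL Q δ * (F.card : ℝ) ^ 4 ≤ c ^ 4 * LL Q δ * (256 * ((G j).card : ℝ) ^ 4) :=
        mul_le_mul_of_nonneg_left h7 (by positivity)
    _ = 256 * (c ^ 4 * LL Q δ * ((G j).card : ℝ) ^ 4) := by ring
    _ ≤ 256 * (288 * N * ∑ n ∈ Icc 1 (2 * N), (rF F n : ℝ) ^ 2) :=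
        mul_le_mul_of_nonneg_left h9 (by norm_num)
    _ = _ := by ring

/-- the biased elements of `A` up to `N` -/
def BB (A : Set ℕ) (Q : Finset ℕ) (φ : ℕ → ℕ → ℂ) (δ : ℕ → ℝ) (c : ℝ) (N : ℕ) : Set ℕ :=
  {a : ℕ | a ∈ A ∧ 1 ≤ a ∧ a ≤ N ∧ c * LL Q δ ≤ ‖SS Q δ φ a‖}

theorem biased_set (A : Set ℕ) (N : ℕ) (Q : Finset ℕ)
    (hQ : Q ⊆ Icc 1 (Nat.sqrt N)) (φ : ℕ → ℕ → ℂ) (h : ∀ q ∈ Q, Prim q (φ q))
    (δ : ℕ → ℝ) (hδ : ∀ q, 0 ≤ δ q) (c : ℝ) (hc : 0 < c) :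
    c ^ 4 * LL Q δ * ((BB A Q φ δ c N).ncard : ℝ) ^ 4 ≤
      73728 * N * ∑ n ∈ range (2 * N + 1), (rep A n : ℝ) ^ 2 := by
  classical
  set F := (seg A N).filter fun a => c * LL Q δ ≤ ‖SS Q δ φ a‖ with hF
  have hFs : F ⊆ seg A N := filter_subset _ _
  have hcard : (BB A Q φ δ c N).ncard = F.card := by
    rw [← Set.ncard_coe_finset]
    congr 1
    ext a
    rw [hF, mem_coe, mem_filter, mem_seg]
    constructor
    · rintro ⟨h1, h2, h3, h4⟩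
      exact ⟨⟨⟨h2, h3⟩, h1⟩, h4⟩
    · rintro ⟨⟨⟨h2, h3⟩, h1⟩, h4⟩
      exact ⟨h1, h2, h3, h4⟩
  have h1 := biased_few (hFs.trans (seg_sub A N)) Q hQ φ h δ hδ c hc
    (fun a ha => (mem_filter.1 ha).2)
  rw [hcard]
  refine h1.trans ?_
  apply mul_le_mul_of_nonneg_left _ (by positivity)
  refine le_trans ?_ (energy_le A N)
  refine sum_le_sum fun n _ => ?_
  apply pow_le_pow_left₀ (Nat.cast_nonneg _)
  have : rF F n ≤ rF (seg A N) n := by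
    unfold rF
    exact card_le_card (filter_subset_filter _ (product_subset_product hFs hFs))
  exact_mod_cast this

theorem biased_unbounded (A : Set ℕ) (Q : ℕ → Finset ℕ)
    (hQ : ∀ N, Q N ⊆ Icc 1 (Nat.sqrt N)) (φ : ℕ → ℕ → ℕ → ℂ) (h : ∀ N, ∀ q ∈ Q N, Prim q (φ N q))
    (δ : ℕ → ℕ → ℝ) (hδ : ∀ N q, 0 ≤ δ N q) (hL : Tendsto (fun N => LL (Q N) (δ N)) atTop atTop)
    (c ε : ℝ) (hc : 0 < c) (hε : 0 < ε)
    (hB : ∃ᶠ N : ℕ in atTop, ε * Real.sqrt N ≤ ((BB A (Q N) (φ N) (δ N) c N).ncard : ℝ)) (B : ℝ) :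
    ∃ᶠ N : ℕ in atTop, B * N < ∑ n ∈ range N, (rep A n : ℝ) ^ 2 := by
  by_contra hcon
  rw [not_frequently] at hcon
  obtain ⟨N₁, hN₁⟩ := eventually_atTop.1 hcon
  have hB0 : ∀ N, N₁ ≤ N → ∑ n ∈ range N, (rep A n : ℝ) ^ 2 ≤ |B| * N := by
    intro N hN
    have h1 := hN₁ N hN
    push Not at h1
    exact h1.trans (mul_le_mul_of_nonneg_right (le_abs_self B) (Nat.cast_nonneg _))
  obtain ⟨N, hN1, hN2, hN3⟩ := (hB.and_eventually ((eventually_ge_atTop (N₁ + 1)).and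
    (hL.eventually_gt_atTop (221184 * |B| / (c ^ 4 * ε ^ 4))))).exists
  have hN0 : 0 < N := by omega
  have hN' : (0 : ℝ) < N := by exact_mod_cast hN0
  have h1 := biased_set A N (Q N) (hQ N) (φ N) (h N) (δ N) (hδ N) c hc
  have h2 : ∑ n ∈ range (2 * N + 1), (rep A n : ℝ) ^ 2 ≤ |B| * (3 * N) := by
    refine (hB0 (2 * N + 1) (by omega)).trans ?_
    apply mul_le_mul_of_nonneg_left _ (abs_nonneg _)
    have : (1 : ℝ) ≤ N := by exact_mod_cast hN0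
    push_cast
    linarith
  have hLp : 0 < LL (Q N) (δ N) := lt_of_le_of_lt (by positivity) hN3
  have h4 : ε ^ 4 * (N : ℝ) ^ 2 ≤ ((BB A (Q N) (φ N) (δ N) c N).ncard : ℝ) ^ 4 := by
    have h5 : (ε * Real.sqrt N) ^ 4 ≤ ((BB A (Q N) (φ N) (δ N) c N).ncard : ℝ) ^ 4 :=
      pow_le_pow_left₀ (by positivity) hN1 4
    have h6 : Real.sqrt N ^ 4 = (N : ℝ) ^ 2 := by
      rw [show (4 : ℕ) = 2 * 2 by norm_num, pow_mul, Real.sq_sqrt hN'.le]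
    rw [mul_pow, h6] at h5
    exact h5
  have h5 : (N : ℝ) ^ 2 * (c ^ 4 * ε ^ 4 * LL (Q N) (δ N)) ≤ (N : ℝ) ^ 2 * (221184 * |B|) := by
    calc (N : ℝ) ^ 2 * (c ^ 4 * ε ^ 4 * LL (Q N) (δ N))
        = c ^ 4 * LL (Q N) (δ N) * (ε ^ 4 * (N : ℝ) ^ 2) := by ring
      _ ≤ c ^ 4 * LL (Q N) (δ N) * ((BB A (Q N) (φ N) (δ N) c N).ncard : ℝ) ^ 4 :=
          mul_le_mul_of_nonneg_left h4 (by positivity)
      _ ≤ _ := h1
      _ ≤ 73728 * N * (|B| * (3 * N)) := mul_le_mul_of_nonneg_left h2 (by positivity)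
      _ = _ := by ring
  have h6 := le_of_mul_le_mul_left h5 (by positivity)
  rw [div_lt_iff₀ (by positivity)] at hN3
  linarith

end Pool.Agent.T4h91.BR
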