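import Pool.Agent.T4h91.BR.Biased

set_option autoImplicit false

/-! Examples of primitive functions: functions with mean zero modulo a prime, primitive characters. -/

open Finset Filter Topology

namespace Pool.Agent.T4h91.BR

open Pool.Agent.Helper112 Pool.Agent.TH314.ET

lemma prim_prime {p : ℕ} (hp : p.Prime) (ψ : ℕ → ℂ) (per : ∀ n, ψ (n % p) = ψ n)
    (mean : ∑ x ∈ range p, ψ x = 0) (msq : ∑ x ∈ range p, ‖ψ x‖ ^ 2 ≤ p) : Prim p ψ := by
  refine ⟨per, msq, fun d hd hne y => ?_⟩
  rcases (Nat.dvd_prime hp).1 hd with rfl | h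
  · by_cases hy : y = 0
    · subst hy
      rw [filter_true_of_mem (fun x _ => Nat.mod_one x)]
      exact mean
    · rw [filter_false_of_mem]
      · exact sum_empty
      · intro x _
        rw [Nat.mod_one]
        exact fun h => hy h.symm
  · exact absurd h hne

lemma sum_range_zmod {M : Type*} [AddCommMonoid M] (q : ℕ) [NeZero q] (f : ZMod q → M) :
    ∑ x ∈ range q, f (x : ZMod q) = ∑ z : ZMod q, f z := by
  refine sum_nbij' (fun x => (x : ZMod q)) ZMod.val ?_ ?_ ?_ ?_ ?_
  · intro x _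
    exact mem_univ _
  · intro z _
    exact mem_range.2 (ZMod.val_lt z)
  · intro x hx
    exact ZMod.val_cast_of_lt (mem_range.1 hx)
  · intro z _
    exact ZMod.natCast_zmod_val z
  · intro x _
    rfl

lemma prim_char {q : ℕ} (hq : 0 < q) (χ : DirichletCharacter ℂ q) (hχ : χ.IsPrimitive) :
    Prim q (fun n => χ (n : ZMod q)) := by
  classical
  have : NeZero q := ⟨hq.ne'⟩
  refine ⟨fun n => ?_, ?_, ?_⟩
  · show χ ((n % q : ℕ) : ZMod q) = χ (n : ZMod q)
    rw [ZMod.natCast_mod]
  · calc ∑ x ∈ range q, ‖χ (x : ZMod q)‖ ^ 2 ≤ ∑ _x ∈ range q, (1 : ℝ) := by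
          refine sum_le_sum fun x _ => ?_
          exact pow_le_one₀ (norm_nonneg _) (DirichletCharacter.norm_le_one χ _)
      _ = q := by rw [sum_const, card_range, nsmul_eq_mul, mul_one]
  · intro d hd hne y
    have hd0 : 0 < d := Nat.pos_of_dvd_of_pos hd hq
    have : NeZero d := ⟨hd0.ne'⟩
    -- a unit which is one modulo `d` and not in the kernel
    have hnf : ¬ χ.FactorsThrough d := by
      intro hf
      have h1 : χ.conductor ≤ d := Nat.sInf_le hf
      have h2 : χ.conductor = q := hχ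
      have h3 := Nat.le_of_dvd hq hd
      omega
    rw [DirichletCharacter.factorsThrough_iff_ker_unitsMap hd] at hnf
    rw [SetLike.not_le_iff_exists] at hnf
    obtain ⟨u, hu1, hu2⟩ := hnf
    rw [MonoidHom.mem_ker] at hu1 hu2
    have hu3 : χ (u : ZMod q) ≠ 1 := by
      intro h
      apply hu2
      ext
      rw [MulChar.coe_toUnitHom, h, Units.val_one]
    have hu4 : ZMod.castHom hd (ZMod d) (u : ZMod q) = 1 := by
      have := congrArg Units.val hu1
      simpa [ZMod.unitsMap_def] using this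
    have hcond : ∀ x : ℕ, x % d = y ↔ (ZMod.castHom hd (ZMod d) (x : ZMod q) = (y : ZMod d) ∧ y < d) := by
      intro x
      rw [map_natCast, ZMod.natCast_eq_natCast_iff']
      constructor
      · rintro rfl
        exact ⟨by rw [Nat.mod_mod], Nat.mod_lt _ hd0⟩
      · rintro ⟨h1, h2⟩
        rw [h1, Nat.mod_eq_of_lt h2]
    rw [sum_filter]
    set f : ZMod q → ℂ := fun z => if (ZMod.castHom hd (ZMod d) z = (y : ZMod d) ∧ y < d) then χ z else 0
      with hf
    have h1 : ∑ x ∈ range q, (if x % d = y then χ (x : ZMod q) else 0) = ∑ z : ZMod q, f z := by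
      rw [← sum_range_zmod q f]
      refine sum_congr rfl fun x _ => ?_
      simp only [hf, hcond]
    rw [h1]
    have h2 : χ (u : ZMod q) * ∑ z : ZMod q, f z = ∑ z : ZMod q, f z := by
      rw [mul_sum]
      have h3 : ∑ z : ZMod q, f ((u : ZMod q) * z) = ∑ z : ZMod q, f z := by
        exact (Units.mulLeft_bijective u).sum_comp f
      rw [← h3]
      refine sum_congr rfl fun z _ => ?_
      simp only [hf]
      rw [map_mul (ZMod.castHom hd (ZMod d)), hu4, one_mul, map_mul]
      split_ifs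
      · rfl
      · rw [mul_zero]
    have h3 : (χ (u : ZMod q) - 1) * ∑ z : ZMod q, f z = 0 := by
      rw [sub_mul, one_mul, h2, sub_self]
    rcases mul_eq_zero.1 h3 with h4 | h4
    · exact absurd (sub_eq_zero.1 h4) hu3
    · exact h4

/-- Legendre symbols -/
lemma prim_legendre {p : ℕ} (hp : p.Prime) (hp2 : p ≠ 2) :
    Prim p (fun n => ((jacobiSym (n : ℤ) p : ℤ) : ℂ)) := by
  have : Fact p.Prime := ⟨hp⟩
  have : NeZero p := ⟨hp.ne_zero⟩
  have hj : ∀ n : ℕ, jacobiSym (n : ℤ) p = quadraticChar (ZMod p) (n : ZMod p) := by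
    intro n
    rw [← jacobiSym.legendreSym.to_jacobiSym p (n : ℤ)]
    unfold legendreSym
    push_cast
    rfl
  refine prim_prime hp _ (fun n => ?_) ?_ ?_
  · show ((jacobiSym ((n % p : ℕ) : ℤ) p : ℤ) : ℂ) = ((jacobiSym (n : ℤ) p : ℤ) : ℂ)
    rw [hj, hj, ZMod.natCast_mod]
  · have h1 : ∑ x ∈ range p, (quadraticChar (ZMod p) (x : ZMod p)) = 0 := by
      rw [sum_range_zmod p (fun z => quadraticChar (ZMod p) z)]
      apply quadraticChar_sum_zero
      rw [ZMod.ringChar_zmod_n]
      exact hp2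
    have h2 : ∑ x ∈ range p, ((jacobiSym (x : ℤ) p : ℤ) : ℂ) =
        ((∑ x ∈ range p, (quadraticChar (ZMod p) (x : ZMod p)) : ℤ) : ℂ) := by
      push_cast
      exact sum_congr rfl fun x _ => by rw [hj]
    rw [h2, h1, Int.cast_zero]
  · calc ∑ x ∈ range p, ‖((jacobiSym (x : ℤ) p : ℤ) : ℂ)‖ ^ 2 ≤ ∑ _x ∈ range p, (1 : ℝ) := by
          refine sum_le_sum fun x _ => ?_
          rcases jacobiSym.trichotomy (x : ℤ) p with h | h | h <;> rw [h] <;> norm_num
      _ = p := by rw [sum_const, card_range, nsmul_eq_mul, mul_one]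

/-- the normalised indicator function of a set of residue classes -/
noncomputable def indS (p : ℕ) (S : Finset ℕ) (n : ℕ) : ℂ :=
  ((((if n % p ∈ S then (1 : ℝ) else 0) - (S.card : ℝ) / p) /
    √((S.card : ℝ) / p * (1 - (S.card : ℝ) / p)) : ℝ) : ℂ)

lemma sum_ind_range (p : ℕ) (S : Finset ℕ) (hS : S ⊆ range p) :
    ∑ x ∈ range p, (if x % p ∈ S then (1 : ℝ) else 0) = S.card := by
  calc ∑ x ∈ range p, (if x % p ∈ S then (1 : ℝ) else 0)
      = ∑ x ∈ range p, (if x ∈ S then (1 : ℝ) else 0) := by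
        refine sum_congr rfl fun x hx => ?_
        rw [Nat.mod_eq_of_lt (mem_range.1 hx)]
    _ = ∑ x ∈ (range p).filter (fun x => x ∈ S), (1 : ℝ) := by rw [sum_filter]
    _ = S.card := by
        rw [sum_const, nsmul_eq_mul, mul_one]
        congr 2
        rw [filter_mem_eq_inter, inter_eq_right.2 hS]

lemma prim_set {p : ℕ} (hp : p.Prime) (S : Finset ℕ) (hS : S ⊆ range p)
    (h0 : 0 < √((S.card : ℝ) / p * (1 - (S.card : ℝ) / p))) : Prim p (indS p S) := by
  have hpr : (0 : ℝ) < p := by exact_mod_cast hp.pos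
  set σ : ℝ := (S.card : ℝ) / p with hσ
  have hσp : σ * p = S.card := by rw [hσ]; field_simp
  have hpos : 0 < σ * (1 - σ) := Real.sqrt_pos.1 h0
  have hsum := sum_ind_range p S hS
  refine prim_prime hp _ (fun n => ?_) ?_ ?_
  · unfold indS
    rw [Nat.mod_mod]
  · unfold indS
    rw [← Complex.ofReal_sum, ← sum_div, sum_sub_distrib, hsum, sum_const, card_range, nsmul_eq_mul,
      ← hσ, mul_comm (p : ℝ) σ, hσp, sub_self, zero_div, Complex.ofReal_zero]
  · have h1 : ∀ x ∈ range p, ‖indS p S x‖ ^ 2 =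
        ((1 - 2 * σ) * (if x % p ∈ S then (1 : ℝ) else 0) + σ ^ 2) / (σ * (1 - σ)) := by
      intro x _
      unfold indS
      rw [Complex.norm_real, Real.norm_eq_abs, sq_abs, div_pow, Real.sq_sqrt hpos.le, ← hσ]
      congr 1
      split_ifs <;> ring
    rw [sum_congr rfl h1, ← sum_div, sum_add_distrib, ← mul_sum, hsum, sum_const, card_range,
      nsmul_eq_mul, ← hσp]
    apply le_of_eq
    rw [div_eq_iff hpos.ne']
    ring

end Pool.Agent.T4h91.BR
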