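import Pool.Agent.T4h91.BR.Ex

set_option autoImplicit false

/-! Consequences: Legendre symbols, sets of residue classes. -/

open Finset Filter Topology

namespace Pool.Agent.T4h91.BR

open Pool.Agent.Helper112 Pool.Agent.TH314.ET

lemma low_all (A : Set ℕ) (h : IsBasis A ∨ QuadGrowth A) : ∃ c : ℝ, 0 < c ∧ ∀ᶠ N : ℕ in atTop,
    c * Real.sqrt N ≤ ((seg A N).card : ℝ) := by
  rcases h with h | h
  · refine ⟨1 / 3, by norm_num, ?_⟩
    filter_upwards [basis_lower A h] with N hN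
    rw [seg_card] at hN
    exact hN
  · obtain ⟨c, hc, h1⟩ := growth_lower A h
    refine ⟨c, hc, ?_⟩
    filter_upwards [h1] with N hN
    rw [seg_card] at hN
    exact hN

/-- odd primes up to `y` -/
def OP (y : ℕ) : Finset ℕ := (Icc 3 y).filter Nat.Prime

lemma sum_OP_tendsto : Tendsto (fun y : ℕ => ∑ p ∈ OP y, 1 / ((p : ℝ) - 1)) atTop atTop := by
  classical
  have h1 := not_summable_one_div_on_primes
  set g : ℕ → ℝ := fun n => if n.Prime then 1 / (n : ℝ) else 0 with hg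
  have hg0 : ∀ n, 0 ≤ g n := by
    intro n
    simp only [hg]
    split_ifs <;> positivity
  have h2 : ¬ Summable g := by
    intro h
    apply h1
    refine h.congr fun n => ?_
    simp only [hg, Set.indicator_apply, Set.mem_ofPred_eq]
  have h3 := (not_summable_iff_tendsto_nat_atTop_of_nonneg hg0).1 h2
  have h4 : Tendsto (fun y : ℕ => ∑ i ∈ range (y + 1), g i - 1 / 2) atTop atTop := by
    apply tendsto_atTop_add_const_right
    exact h3.comp (tendsto_add_atTop_nat 1)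
  refine tendsto_atTop_mono' _ ?_ h4
  filter_upwards [eventually_ge_atTop 2] with y hy
  have h5 : ∑ i ∈ range (y + 1), g i = ∑ p ∈ (range (y + 1)).filter Nat.Prime, 1 / (p : ℝ) := by
    rw [sum_filter]
  have h6 : (range (y + 1)).filter Nat.Prime = insert 2 (OP y) := by
    ext p
    unfold OP
    rw [mem_filter, mem_range, mem_insert, mem_filter, mem_Icc]
    constructor
    · rintro ⟨h7, h8⟩
      have := h8.two_le
      by_cases h9 : p = 2
      · exact Or.inl h9
      · exact Or.inr ⟨⟨by omega, by omega⟩, h8⟩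
    · rintro (rfl | ⟨h7, h8⟩)
      · exact ⟨by omega, Nat.prime_two⟩
      · exact ⟨by omega, h8⟩
  have h7 : (2 : ℕ) ∉ OP y := by
    unfold OP
    rw [mem_filter, mem_Icc]
    omega
  rw [h5, h6, sum_insert h7]
  have h8 : ∑ p ∈ OP y, 1 / (p : ℝ) ≤ ∑ p ∈ OP y, 1 / ((p : ℝ) - 1) := by
    refine sum_le_sum fun p hp => ?_
    unfold OP at hp
    rw [mem_filter, mem_Icc] at hp
    have : (3 : ℝ) ≤ p := by exact_mod_cast hp.1.1
    apply one_div_le_one_div_of_le <;> linarith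
  push_cast
  linarith

/-- numbers `a` with biased Legendre symbols -/
theorem legendre_biased (A : Set ℕ) (y : ℕ → ℕ) (hy : Tendsto y atTop atTop)
    (hyN : ∀ N, y N ≤ Nat.sqrt N) (δ ε : ℝ) (hδ : 0 < δ) (hε : 0 < ε)
    (h : ∃ᶠ N : ℕ in atTop, ε * Real.sqrt N ≤ (({a : ℕ | a ∈ A ∧ 1 ≤ a ∧ a ≤ N ∧
      δ * ∑ p ∈ OP (y N), 1 / ((p : ℝ) - 1) ≤
        |∑ p ∈ OP (y N), ((jacobiSym (a : ℤ) p : ℤ) : ℝ) / ((p : ℝ) - 1)|}.ncard : ℕ) : ℝ)) (B : ℝ) :
    ∃ᶠ N : ℕ in atTop, B * N < ∑ n ∈ range N, (rep A n : ℝ) ^ 2 := by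
  have hpr : ∀ N, ∀ p ∈ OP (y N), p.Prime ∧ p ≠ 2 := by
    intro N p hp
    unfold OP at hp
    rw [mem_filter, mem_Icc] at hp
    exact ⟨hp.2, by omega⟩
  have hLL : ∀ N, LL (OP (y N)) (fun _ => δ) = δ ^ 4 * ∑ p ∈ OP (y N), 1 / ((p : ℝ) - 1) := by
    intro N
    unfold LL
    rw [mul_sum]
    refine sum_congr rfl fun p hp => ?_
    rw [Nat.totient_prime (hpr N p hp).1, Nat.cast_sub (hpr N p hp).1.one_lt.le, Nat.cast_one]
    ring
  have hSS : ∀ N a, ‖SS (OP (y N)) (fun _ => δ) (fun p n => ((jacobiSym (n : ℤ) p : ℤ) : ℂ)) a‖ =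
      δ ^ 3 * |∑ p ∈ OP (y N), ((jacobiSym (a : ℤ) p : ℤ) : ℝ) / ((p : ℝ) - 1)| := by
    intro N a
    have e : SS (OP (y N)) (fun _ => δ) (fun p n => ((jacobiSym (n : ℤ) p : ℤ) : ℂ)) a =
        ((δ ^ 3 * ∑ p ∈ OP (y N), ((jacobiSym (a : ℤ) p : ℤ) : ℝ) / ((p : ℝ) - 1) : ℝ) : ℂ) := by
      unfold SS
      rw [mul_sum]
      push_cast
      refine sum_congr rfl fun p hp => ?_
      rw [Nat.totient_prime (hpr N p hp).1, Nat.cast_sub (hpr N p hp).1.one_lt.le, Nat.cast_one]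
      push_cast
      ring
    rw [e, Complex.norm_real, Real.norm_eq_abs, abs_mul, abs_of_pos (by positivity)]
  refine biased_unbounded A (fun N => OP (y N)) (fun N p hp => ?_)
    (fun _ p n => ((jacobiSym (n : ℤ) p : ℤ) : ℂ)) (fun N q hq => prim_legendre (hpr N q hq).1 (hpr N q hq).2)
    (fun _ _ => δ) (fun _ _ => hδ.le) ?_ 1 ε one_pos hε ?_ B
  · have h1 := hyN N
    unfold OP at hp
    rw [mem_filter, mem_Icc] at hp
    rw [mem_Icc]
    omega
  · have h1 : (fun N => LL (OP (y N)) (fun _ => δ)) =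
        fun N => δ ^ 4 * ∑ p ∈ OP (y N), 1 / ((p : ℝ) - 1) := by
      funext N
      exact hLL N
    rw [h1]
    exact (sum_OP_tendsto.comp hy).const_mul_atTop (by positivity)
  · refine h.mono fun N hN => hN.trans (le_of_eq ?_)
    congr 2
    ext a
    unfold BB
    simp only [Set.mem_ofPred_eq]
    rw [hLL N, hSS N a, one_mul]
    have e : δ ^ 4 * ∑ p ∈ OP (y N), 1 / ((p : ℝ) - 1) =
        δ ^ 3 * (δ * ∑ p ∈ OP (y N), 1 / ((p : ℝ) - 1)) := by ring
    rw [e, mul_le_mul_iff_right₀ (by positivity : 0 < δ ^ 3)]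

/-- residue classes which contain too many elements of `A` -/
theorem sets_biased (A : Set ℕ) (hA : Thick A) (S : ℕ → Finset ℕ) (hS : ∀ p, S p ⊆ range p)
    (β : ℕ → ℝ) (hβ : ∀ p, 0 ≤ β p)
    (hb : ∀ p : ℕ, p.Prime → ∀ᶠ N : ℕ in atTop, (((S p).card : ℝ) / p + β p) * (seg A N).card ≤
      (((seg A N).filter (fun a => a % p ∈ S p)).card : ℝ))
    (hdiv : ¬ Summable fun p : ℕ => if p.Prime then
      β p ^ 4 / ((((S p).card : ℝ) / p * (1 - ((S p).card : ℝ) / p)) ^ 2 * ((p : ℝ) - 1)) else 0)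
    (B : ℝ) : ∃ᶠ N : ℕ in atTop, B * N < ∑ n ∈ range N, (rep A n : ℝ) ^ 2 := by
  classical
  set σ : ℕ → ℝ := fun p => ((S p).card : ℝ) / p with hσ
  set δ : ℕ → ℝ := fun p => if p.Prime then β p / √(σ p * (1 - σ p)) else 0 with hδ
  have hδ0 : ∀ q, 0 ≤ δ q := by
    intro q
    simp only [hδ]
    split_ifs
    · exact div_nonneg (hβ q) (Real.sqrt_nonneg _)
    · exact le_refl _
  have hpos : ∀ q, 0 < δ q → q.Prime ∧ 0 < √(σ q * (1 - σ q)) := by
    intro q hq
    simp only [hδ] at hq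
    split_ifs at hq with hp
    · refine ⟨hp, ?_⟩
      rcases (Real.sqrt_nonneg (σ q * (1 - σ q))).eq_or_lt with h | h
      · rw [← h, div_zero] at hq
        exact absurd hq (lt_irrefl _)
      · exact h
    · exact absurd hq (lt_irrefl _)
  refine diverge A hA (fun q => indS q (S q)) δ hδ0 (fun q hq => ?_) (fun q hq => ?_) ?_ B
  · exact prim_set (hpos q hq).1 (S q) (hS q) (hpos q hq).2
  · obtain ⟨hp, hs⟩ := hpos q hq
    filter_upwards [hb q hp] with N hN
    have e : ∑ a ∈ seg A N, indS q (S q) a =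
        ((((((seg A N).filter (fun a => a % q ∈ S q)).card : ℝ) - σ q * (seg A N).card) /
          √(σ q * (1 - σ q)) : ℝ) : ℂ) := by
      unfold indS
      rw [← Complex.ofReal_sum, ← sum_div, sum_sub_distrib, sum_const, nsmul_eq_mul,
        mul_comm ((seg A N).card : ℝ)]
      congr 3
      rw [← sum_filter, sum_const, nsmul_eq_mul, mul_one]
    have hδq : δ q = β q / √(σ q * (1 - σ q)) := by simp only [hδ, if_pos hp]
    rw [e, Complex.norm_real, Real.norm_eq_abs, hδq]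
    refine le_trans ?_ (le_abs_self _)
    rw [div_mul_eq_mul_div]
    apply div_le_div_of_nonneg_right _ hs.le
    have hσq : σ q = ((S q).card : ℝ) / q := rfl
    rw [hσq]
    linarith
  · intro hsum
    apply hdiv
    refine hsum.congr fun p => ?_
    simp only [hδ]
    split_ifs with hp
    · have hpr : (0 : ℝ) < p := by exact_mod_cast hp.pos
      have h1 : (S p).card ≤ p := by
        have := card_le_card (hS p)
        rwa [card_range] at this
      have h2 : σ p ≤ 1 := by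
        simp only [hσ]
        rw [div_le_one hpr]
        exact_mod_cast h1
      have h3 : 0 ≤ σ p := by simp only [hσ]; positivity
      have h4 : 0 ≤ σ p * (1 - σ p) := mul_nonneg h3 (by linarith)
      have h5 : √(σ p * (1 - σ p)) ^ 4 = (σ p * (1 - σ p)) ^ 2 := by
        rw [show (4 : ℕ) = 2 * 2 by norm_num, pow_mul, Real.sq_sqrt h4]
      rw [div_pow, h5, Nat.totient_prime hp, Nat.cast_sub hp.one_lt.le, Nat.cast_one, div_div]
    · simp

end Pool.Agent.T4h91.BR
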