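import Pool.Agent.TH314.ET.Hyp

set_option autoImplicit false

/-! Primitive functions modulo `q` on sets with a small representation function. -/

open Finset Filter Topology

namespace Pool.Agent.T4h91.BR

open Pool.Agent.Helper112 Pool.Agent.TH314.ET

/-- `φ` is a primitive function modulo `q` with mean square at most one: it has period `q`, and for
every proper divisor `d` of `q` its sums over the residue classes modulo `d` vanish. -/
structure Prim (q : ℕ) (φ : ℕ → ℂ) : Prop where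
  per : ∀ n, φ (n % q) = φ n
  msq : ∑ x ∈ range q, ‖φ x‖ ^ 2 ≤ q
  prim : ∀ d : ℕ, d ∣ q → d ≠ q → ∀ y : ℕ, ∑ x ∈ (range q).filter (fun x => x % d = y), φ x = 0

lemma prim_zero (q : ℕ) : Prim q (fun _ => 0) := by
  refine ⟨fun _ => rfl, ?_, ?_⟩
  · simp
  · intro d _ _ y
    simp

lemma prim_conj {q : ℕ} {φ : ℕ → ℂ} (h : Prim q φ) : Prim q (fun n => (starRingEnd ℂ) (φ n)) := by
  refine ⟨fun n => by rw [h.per], ?_, ?_⟩
  · simpa using h.msq
  · intro d h1 h2 y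
    rw [← map_sum, h.prim d h1 h2 y, map_zero]

/-- the Fourier transform of a primitive function lives on the reduced fractions -/
lemma dft_zero {q : ℕ} {φ : ℕ → ℂ} (h : Prim q φ) (hq : 0 < q) (b : ℕ) (hb : ¬ b.Coprime q) :
    ∑ c ∈ range q, φ c * ee (b * ((c : ℝ) / q)) = 0 := by
  obtain ⟨g, hg, b', d, rfl, rfl⟩ : ∃ g : ℕ, g ≠ 1 ∧ ∃ b' d : ℕ, b = g * b' ∧ q = g * d := by
    refine ⟨b.gcd q, hb, ?_⟩
    obtain ⟨b', hb'⟩ := Nat.gcd_dvd_left b q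
    obtain ⟨d, hd⟩ := Nat.gcd_dvd_right b q
    exact ⟨b', d, hb', hd⟩
  have hg0 : 0 < g := Nat.pos_of_mul_pos_right hq |> fun h => by
    rcases Nat.eq_zero_or_pos g with h0 | h0
    · subst h0; simp at hq
    · exact h0
  have hd0 : 0 < d := by
    rcases Nat.eq_zero_or_pos d with h0 | h0
    · subst h0; simp at hq
    · exact h0
  have hdq : d ≠ g * d := by
    intro h'
    have : 1 * d = g * d := by omega
    exact hg (Nat.eq_of_mul_eq_mul_right hd0 this).symm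
  have he : ∀ c : ℕ, ee (((g * b' : ℕ) : ℝ) * ((c : ℝ) / ((g * d : ℕ) : ℝ))) =
      ee ((b' : ℝ) * (((c % d : ℕ) : ℝ) / d)) := by
    intro c
    have hgr : (g : ℝ) ≠ 0 := by positivity
    have hdr : (d : ℝ) ≠ 0 := by positivity
    have h2 : (c : ℝ) = (d : ℝ) * ((c / d : ℕ) : ℝ) + ((c % d : ℕ) : ℝ) := by
      exact_mod_cast (Nat.div_add_mod c d).symm
    have h3 : ((g * b' : ℕ) : ℝ) * ((c : ℝ) / ((g * d : ℕ) : ℝ)) =
        (b' : ℝ) * (((c % d : ℕ) : ℝ) / d) + (((b' * (c / d) : ℕ) : ℕ) : ℝ) := by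
      push_cast
      rw [h2]
      push_cast
      field_simp
      have h4 : (((d * (c / d) + c % d : ℕ)) : ℝ) = c := by exact_mod_cast Nat.div_add_mod c d
      push_cast at h4
      try ring
    rw [h3, ls_ee_add, ls_ee_nat, mul_one]
  have h1 : ∑ c ∈ range (g * d), φ c * ee (((g * b' : ℕ) : ℝ) * ((c : ℝ) / ((g * d : ℕ) : ℝ))) =
      ∑ y ∈ range d, ∑ c ∈ (range (g * d)).filter (fun c => c % d = y),
        φ c * ee ((b' : ℝ) * ((y : ℝ) / d)) := by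
    rw [← Finset.sum_fiberwise_of_maps_to (s := range (g * d)) (t := range d)
      (g := fun c => c % d) (fun c _ => mem_range.2 (Nat.mod_lt _ hd0))]
    refine sum_congr rfl fun y _ => sum_congr rfl fun c hc => ?_
    rw [he c, (mem_filter.1 hc).2]
  rw [h1]
  refine sum_eq_zero fun y _ => ?_
  rw [← sum_mul, h.prim d (Dvd.intro_left g rfl) hdq y, zero_mul]

/-- the number of elements of `F` in a residue class -/
def cls (F : Finset ℕ) (q c : ℕ) : ℕ := (F.filter (fun a => a % q = c)).card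

lemma sum_cls (F : Finset ℕ) {q : ℕ} {φ : ℕ → ℂ} (h : Prim q φ) (hq : 0 < q) :
    ∑ a ∈ F, φ a = ∑ c ∈ range q, φ c * (cls F q c : ℂ) := by
  rw [← Finset.sum_fiberwise_of_maps_to (s := F) (t := range q)
      (g := fun a => a % q) (fun a _ => mem_range.2 (Nat.mod_lt _ hq))]
  refine sum_congr rfl fun c _ => ?_
  calc ∑ a ∈ F.filter (fun a => a % q = c), φ a = ∑ _a ∈ F.filter (fun a => a % q = c), φ c := by
        refine sum_congr rfl fun a ha => ?_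
        rw [← h.per a, (mem_filter.1 ha).2]
    _ = _ := by rw [sum_const, nsmul_eq_mul, mul_comm]; rfl

lemma Sf_cls (F : Finset ℕ) {q : ℕ} (hq : 0 < q) (b : ℕ) :
    Sf (ind F) (b / q) = ∑ c ∈ range q, (cls F q c : ℂ) * ee (b * ((c : ℝ) / q)) := by
  have h := Sf_expand (ind_summable F) q hq 0 b
  rw [add_zero] at h
  rw [h]
  refine sum_congr rfl fun c _ => ?_
  rw [part_ind]
  rfl

/-- one modulus -/
lemma one_mod (F : Finset ℕ) {q : ℕ} {φ : ℕ → ℂ} (h : Prim q φ) (hq : 0 < q) :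
    ‖∑ a ∈ F, φ a‖ ^ 4 / (Nat.totient q : ℝ) ≤
      ∑ b ∈ (range q).filter (fun b => b.Coprime q), ‖Sf (ind F) (b / q)‖ ^ 4 := by
  classical
  set R := (range q).filter (fun b => b.Coprime q) with hR
  set g : ℕ → ℂ := fun b => ∑ c ∈ range q, (starRingEnd ℂ) (φ c) * ee (b * ((c : ℝ) / q)) with hg
  set f : ℕ → ℂ := fun b => Sf (ind F) (b / q) with hf
  have hqr : (0 : ℝ) < q := by exact_mod_cast hq
  have h1 : ∑ b ∈ range q, (starRingEnd ℂ) (g b) * f b = q * ∑ a ∈ F, φ a := by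
    rw [sum_cls F h hq]
    have h2 : ∀ b ∈ range q, (starRingEnd ℂ) (g b) * f b = ∑ c ∈ range q, ∑ d ∈ range q,
        φ c * (cls F q d : ℂ) * (ee (b * ((d : ℝ) / q)) * (starRingEnd ℂ) (ee (b * ((c : ℝ) / q)))) := by
      intro b _
      simp only [hg, hf]
      rw [Sf_cls F hq, map_sum, sum_mul_sum]
      refine sum_congr rfl fun c _ => sum_congr rfl fun d _ => ?_
      rw [map_mul, Complex.conj_conj]
      ring
    rw [sum_congr rfl h2, sum_comm, mul_sum]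
    refine sum_congr rfl fun c hc => ?_
    rw [sum_comm]
    have h3 : ∀ d ∈ range q, ∑ b ∈ range q,
        φ c * (cls F q d : ℂ) * (ee (b * ((d : ℝ) / q)) * (starRingEnd ℂ) (ee (b * ((c : ℝ) / q)))) =
        if d = c then φ c * (cls F q d : ℂ) * (q : ℂ) else 0 := by
      intro d hd
      rw [← mul_sum, geom_ee q d c (mem_range.1 hd) (mem_range.1 hc)]
      split_ifs with h4
      · rfl
      · rw [mul_zero]
    rw [sum_congr rfl h3, sum_ite_eq', if_pos hc]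
    ring
  have h2 : ∑ b ∈ range q, (starRingEnd ℂ) (g b) * f b = ∑ b ∈ R, (starRingEnd ℂ) (g b) * f b := by
    rw [hR, sum_filter]
    refine sum_congr rfl fun b _ => ?_
    split_ifs with hb
    · rfl
    · have : g b = 0 := dft_zero (prim_conj h) hq b hb
      rw [this, map_zero, zero_mul]
  have h3 : (q : ℝ) * ‖∑ a ∈ F, φ a‖ ≤ ∑ b ∈ R, ‖g b‖ * ‖f b‖ := by
    calc (q : ℝ) * ‖∑ a ∈ F, φ a‖ = ‖(q : ℂ) * ∑ a ∈ F, φ a‖ := by
          rw [norm_mul, Complex.norm_natCast]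
      _ = ‖∑ b ∈ R, (starRingEnd ℂ) (g b) * f b‖ := by rw [← h1, h2]
      _ ≤ ∑ b ∈ R, ‖(starRingEnd ℂ) (g b) * f b‖ := norm_sum_le _ _
      _ = _ := by
        refine sum_congr rfl fun b _ => ?_
        rw [norm_mul, RCLike.norm_conj]
  have h4 : (∑ b ∈ R, ‖g b‖ * ‖f b‖) ^ 2 ≤ (∑ b ∈ R, ‖g b‖ ^ 2) * ∑ b ∈ R, ‖f b‖ ^ 2 :=
    sum_mul_sq_le_sq_mul_sq _ _ _
  have h5 : ∑ b ∈ R, ‖g b‖ ^ 2 ≤ (q : ℝ) ^ 2 := by
    calc ∑ b ∈ R, ‖g b‖ ^ 2 ≤ ∑ b ∈ range q, ‖g b‖ ^ 2 :=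
          sum_le_sum_of_subset_of_nonneg (filter_subset _ _) fun _ _ _ => by positivity
      _ = q * ∑ c ∈ range q, ‖(starRingEnd ℂ) (φ c)‖ ^ 2 := parseval_range q _
      _ ≤ q * q := mul_le_mul_of_nonneg_left (prim_conj h).msq hqr.le
      _ = _ := by ring
  have hf0 : 0 ≤ ∑ b ∈ R, ‖f b‖ ^ 2 := sum_nonneg fun _ _ => by positivity
  have h6 : ‖∑ a ∈ F, φ a‖ ^ 2 ≤ ∑ b ∈ R, ‖f b‖ ^ 2 := by
    have h7 : ((q : ℝ) * ‖∑ a ∈ F, φ a‖) ^ 2 ≤ (q : ℝ) ^ 2 * ∑ b ∈ R, ‖f b‖ ^ 2 := by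
      calc ((q : ℝ) * ‖∑ a ∈ F, φ a‖) ^ 2 ≤ (∑ b ∈ R, ‖g b‖ * ‖f b‖) ^ 2 :=
            pow_le_pow_left₀ (by positivity) h3 2
        _ ≤ _ := h4
        _ ≤ _ := mul_le_mul_of_nonneg_right h5 hf0
    rw [mul_pow] at h7
    exact le_of_mul_le_mul_left h7 (by positivity)
  have h7 : (∑ b ∈ R, ‖f b‖ ^ 2) ^ 2 ≤ R.card * ∑ b ∈ R, (‖f b‖ ^ 2) ^ 2 :=
    sq_sum_le_card_mul_sum_sq
  have hcard : R.card = Nat.totient q := by
    rw [hR, card_coprime]
  have ht : (0 : ℝ) < Nat.totient q := by exact_mod_cast Nat.totient_pos.2 hq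
  rw [div_le_iff₀ ht]
  calc ‖∑ a ∈ F, φ a‖ ^ 4 = (‖∑ a ∈ F, φ a‖ ^ 2) ^ 2 := by ring
    _ ≤ (∑ b ∈ R, ‖f b‖ ^ 2) ^ 2 := pow_le_pow_left₀ (by positivity) h6 2
    _ ≤ _ := h7
    _ = (∑ b ∈ R, ‖f b‖ ^ 4) * Nat.totient q := by
      rw [hcard, mul_comm]
      congr 1
      refine sum_congr rfl fun b _ => ?_
      ring

/-- all moduli up to `√N` -/
theorem quartic (A : Set ℕ) (N : ℕ) (φ : ℕ → ℕ → ℂ) (h : ∀ q, 1 ≤ q → Prim q (φ q)) :
    ∑ q ∈ Icc 1 (Nat.sqrt N), ‖∑ a ∈ seg A N, φ q a‖ ^ 4 / (Nat.totient q : ℝ) ≤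
      18 * N * ∑ n ∈ range (2 * N + 1), (rep A n : ℝ) ^ 2 := by
  have h0 : ∑ q ∈ Icc 1 (Nat.sqrt N), ‖∑ a ∈ seg A N, φ q a‖ ^ 4 / (Nat.totient q : ℝ) ≤
      6 * (2 * N + ((Nat.sqrt N : ℕ) : ℝ) ^ 2) * ∑ n ∈ Icc 1 (2 * N), (rF (seg A N) n : ℝ) ^ 2 := by
    refine le_trans ?_ (fourth_moment (seg_sub A N) (Nat.sqrt N))
    refine sum_le_sum fun q hq => ?_
    have hq1 := (mem_Icc.1 hq).1
    exact one_mod _ (h q hq1) hq1
  refine h0.trans ?_
  have h1 : ((Nat.sqrt N : ℕ) : ℝ) ^ 2 ≤ N := by exact_mod_cast Nat.sqrt_le' N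
  have h2 := energy_le A N
  have h3 : (0 : ℝ) ≤ ∑ n ∈ Icc 1 (2 * N), (rF (seg A N) n : ℝ) ^ 2 :=
    Finset.sum_nonneg fun _ _ => by positivity
  calc 6 * (2 * N + ((Nat.sqrt N : ℕ) : ℝ) ^ 2) * ∑ n ∈ Icc 1 (2 * N), (rF (seg A N) n : ℝ) ^ 2
      ≤ 6 * (2 * N + N) * ∑ n ∈ Icc 1 (2 * N), (rF (seg A N) n : ℝ) ^ 2 := by
        apply mul_le_mul_of_nonneg_right _ h3
        linarith
    _ ≤ 6 * (2 * N + N) * ∑ n ∈ range (2 * N + 1), (rep A n : ℝ) ^ 2 :=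
        mul_le_mul_of_nonneg_left h2 (by positivity)
    _ = _ := by ring

/-- divergence of `∑ δ⁴ / φ(q)` -/
theorem diverge (A : Set ℕ) (hA : Thick A) (φ : ℕ → ℕ → ℂ) (δ : ℕ → ℝ) (hδ : ∀ q, 0 ≤ δ q)
    (hφ : ∀ q, 0 < δ q → Prim q (φ q))
    (hb : ∀ q, 0 < δ q → ∀ᶠ N : ℕ in atTop, δ q * (seg A N).card ≤ ‖∑ a ∈ seg A N, φ q a‖)
    (hdiv : ¬ Summable fun q : ℕ => δ q ^ 4 / (Nat.totient q : ℝ))
    (B : ℝ) : ∃ᶠ N : ℕ in atTop, B * N < ∑ n ∈ range N, (rep A n : ℝ) ^ 2 := by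
  classical
  by_contra hcon
  rw [not_frequently] at hcon
  obtain ⟨N₁, hN₁⟩ := eventually_atTop.1 hcon
  have hB0 : ∀ N, N₁ ≤ N → ∑ n ∈ range N, (rep A n : ℝ) ^ 2 ≤ |B| * N := by
    intro N hN
    have h1 := hN₁ N hN
    push Not at h1
    exact h1.trans (mul_le_mul_of_nonneg_right (le_abs_self B) (Nat.cast_nonneg _))
  obtain ⟨c, hc, hfreq⟩ := hA
  apply hdiv
  set f : ℕ → ℝ := fun q => δ q ^ 4 / (Nat.totient q : ℝ) with hf
  have hf0 : ∀ p, 0 ≤ f p := fun p => div_nonneg (pow_nonneg (hδ p) 4) (Nat.cast_nonneg _)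
  refine summable_of_sum_range_le (c := 54 * |B| / c ^ 4) hf0 fun m => ?_
  have hev : ∀ᶠ N : ℕ in atTop, ∀ q ∈ range m, 0 < δ q →
      δ q * (seg A N).card ≤ ‖∑ a ∈ seg A N, φ q a‖ := by
    rw [Filter.eventually_all_finset]
    intro q _
    by_cases h : 0 < δ q
    · filter_upwards [hb q h] with N hN _
      exact hN
    · exact Eventually.of_forall fun N h' => absurd h' h
  obtain ⟨N, hN1, hN2, hN3, hN4⟩ := (hfreq.and_eventually ((eventually_ge_atTop ((m + 1) ^ 2)).and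
    ((eventually_ge_atTop (N₁ + 1)).and hev))).exists
  have hN0 : 0 < N := by omega
  have hN' : (0 : ℝ) < N := by exact_mod_cast hN0
  have hsq : m + 1 ≤ Nat.sqrt N := by
    rw [Nat.le_sqrt']
    exact hN2
  set φ' : ℕ → ℕ → ℂ := fun q => if 0 < δ q then φ q else fun _ => 0 with hφ'
  have h1 := quartic A N φ' (by
    intro q _
    simp only [hφ']
    split_ifs with h
    · exact hφ q h
    · exact prim_zero q)
  have h2 : ∑ n ∈ range (2 * N + 1), (rep A n : ℝ) ^ 2 ≤ |B| * (3 * N) := by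
    refine (hB0 (2 * N + 1) (by omega)).trans ?_
    apply mul_le_mul_of_nonneg_left _ (abs_nonneg _)
    have : (1 : ℝ) ≤ N := by exact_mod_cast hN0
    push_cast
    linarith
  set F := seg A N with hF
  have hcard : c * Real.sqrt N ≤ (F.card : ℝ) := by
    rw [seg_card] at hN1
    exact hN1
  have h3 : (F.card : ℝ) ^ 4 * ∑ q ∈ range m, f q ≤
      ∑ q ∈ Icc 1 (Nat.sqrt N), ‖∑ a ∈ F, φ' q a‖ ^ 4 / (Nat.totient q : ℝ) := by
    rw [mul_sum]
    have h4 : ∀ q ∈ range m, (F.card : ℝ) ^ 4 * f q ≤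
        ‖∑ a ∈ F, φ' q a‖ ^ 4 / (Nat.totient q : ℝ) := by
      intro q hq
      simp only [hf]
      rw [← mul_div_assoc]
      apply div_le_div_of_nonneg_right _ (Nat.cast_nonneg _)
      by_cases h : 0 < δ q
      · have h5 := hN4 q hq h
        have h6 : φ' q = φ q := by simp only [hφ', if_pos h]
        rw [h6, ← mul_pow, mul_comm]
        exact pow_le_pow_left₀ (mul_nonneg (hδ q) (Nat.cast_nonneg _)) h5 4
      · have h7 : δ q = 0 := le_antisymm (not_lt.1 h) (hδ q)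
        rw [h7]
        simp only [ne_eq, OfNat.ofNat_ne_zero, not_false_eq_true, zero_pow, mul_zero]
        positivity
    calc ∑ q ∈ range m, (F.card : ℝ) ^ 4 * f q
        = ∑ q ∈ (range m).erase 0, (F.card : ℝ) ^ 4 * f q := by
          symm
          apply sum_subset (erase_subset _ _)
          intro q hq hq'
          have h0 : q = 0 := by
            by_contra h
            exact hq' (mem_erase.2 ⟨h, hq⟩)
          subst h0
          simp [hf]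
      _ ≤ ∑ q ∈ (range m).erase 0, ‖∑ a ∈ F, φ' q a‖ ^ 4 / (Nat.totient q : ℝ) :=
          sum_le_sum fun q hq => h4 q (mem_of_mem_erase hq)
      _ ≤ _ := by
          apply sum_le_sum_of_subset_of_nonneg
          · intro q hq
            rw [mem_erase, mem_range] at hq
            rw [mem_Icc]
            omega
          · intro q _ _
            positivity
  have h4 : c ^ 4 * (N : ℝ) ^ 2 ≤ (F.card : ℝ) ^ 4 := by
    have h5 : (c * Real.sqrt N) ^ 4 ≤ (F.card : ℝ) ^ 4 :=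
      pow_le_pow_left₀ (by positivity) hcard 4
    have h6 : Real.sqrt N ^ 4 = (N : ℝ) ^ 2 := by
      rw [show (4 : ℕ) = 2 * 2 by norm_num, pow_mul, Real.sq_sqrt hN'.le]
    rw [mul_pow, h6] at h5
    exact h5
  have hs0 : 0 ≤ ∑ q ∈ range m, f q := Finset.sum_nonneg fun p _ => hf0 p
  rw [le_div_iff₀ (by positivity)]
  have h5 : (c ^ 4 * (N : ℝ) ^ 2) * ∑ q ∈ range m, f q ≤ 18 * N * (|B| * (3 * N)) := by
    calc (c ^ 4 * (N : ℝ) ^ 2) * ∑ q ∈ range m, f q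
        ≤ (F.card : ℝ) ^ 4 * ∑ q ∈ range m, f q := mul_le_mul_of_nonneg_right h4 hs0
      _ ≤ _ := h3
      _ ≤ _ := h1
      _ ≤ _ := mul_le_mul_of_nonneg_left h2 (by positivity)
  have h6 : (N : ℝ) ^ 2 * ((∑ q ∈ range m, f q) * c ^ 4) ≤ (N : ℝ) ^ 2 * (54 * |B|) := by
    linarith
  exact le_of_mul_le_mul_left h6 (by positivity)

end Pool.Agent.T4h91.BR
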